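import Pool.Agent.H65.PK.Targets

/-!
Module IDB of pker_modules: joint eigenbasis of commuting idempotents.
-/

set_option autoImplicit false

open Polynomial Module

namespace Pool.Agent.H65.PKER

open Pool.Agent.H65.PK

/-- joint eigenvectors span -/
theorem idb_span (R : Type) [AddCommGroup R] [Module ℚ R] (p : ℕ) :
    ∀ (P : Fin p → Module.End ℚ R), (∀ s, P s * P s = P s) →
    (∀ s s', P s * P s' = P s' * P s) →
    ∀ V : Submodule ℚ R, (∀ s, ∀ v ∈ V, P s v ∈ V) →
    V ≤ Submodule.span ℚ {v | v ∈ V ∧ ∀ s, P s v = 0 ∨ P s v = v} := by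
  induction p with
  | zero =>
    intro P _ _ V _ v hv
    exact Submodule.subset_span ⟨hv, fun s => s.elim0⟩
  | succ p ih =>
    intro P hP hc V hV v hv
    have key : ∀ (x : R), x ∈ V → (P (Fin.last p) x = 0 ∨ P (Fin.last p) x = x) →
        x ∈ Submodule.span ℚ {v | v ∈ V ∧ ∀ s, P s v = 0 ∨ P s v = v} := by
      intro x hx hx2
      have hcomm : ∀ (s : Fin (p + 1)) (y : R), P (Fin.last p) (P s y) = P s (P (Fin.last p) y) := by
        intro s y
        exact congrArg (fun f : Module.End ℚ R => f y) (hc (Fin.last p) s)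
      rcases hx2 with h0 | h1
      · have h2 := ih (fun s => P s.castSucc) (fun s => hP _) (fun s s' => hc _ _)
          (V ⊓ LinearMap.ker (P (Fin.last p))) (by
            rintro s y ⟨hy1, hy2⟩
            refine ⟨hV _ y hy1, ?_⟩
            rw [SetLike.mem_coe, LinearMap.mem_ker] at hy2 ⊢
            rw [hcomm, hy2, map_zero]) ⟨hx, by rw [SetLike.mem_coe, LinearMap.mem_ker]; exact h0⟩
        refine Submodule.span_mono ?_ h2
        rintro y ⟨⟨hy1, hy2⟩, hy3⟩
        rw [SetLike.mem_coe, LinearMap.mem_ker] at hy2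
        refine ⟨hy1, fun s => ?_⟩
        refine Fin.lastCases ?_ (fun s => ?_) s
        · exact Or.inl hy2
        · exact hy3 s
      · have h2 := ih (fun s => P s.castSucc) (fun s => hP _) (fun s s' => hc _ _)
          (V ⊓ LinearMap.ker (P (Fin.last p) - 1)) (by
            rintro s y ⟨hy1, hy2⟩
            refine ⟨hV _ y hy1, ?_⟩
            rw [SetLike.mem_coe, LinearMap.mem_ker, LinearMap.sub_apply, Module.End.one_apply,
              sub_eq_zero] at hy2 ⊢
            rw [hcomm, hy2]) ⟨hx, by
              rw [SetLike.mem_coe, LinearMap.mem_ker, LinearMap.sub_apply, Module.End.one_apply,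
                sub_eq_zero]
              exact h1⟩
        refine Submodule.span_mono ?_ h2
        rintro y ⟨⟨hy1, hy2⟩, hy3⟩
        rw [SetLike.mem_coe, LinearMap.mem_ker, LinearMap.sub_apply, Module.End.one_apply,
          sub_eq_zero] at hy2
        refine ⟨hy1, fun s => ?_⟩
        refine Fin.lastCases ?_ (fun s => ?_) s
        · exact Or.inr hy2
        · exact hy3 s
    have hid : ∀ y : R, P (Fin.last p) (P (Fin.last p) y) = P (Fin.last p) y := fun y =>
      congrArg (fun f : Module.End ℚ R => f y) (hP (Fin.last p))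
    have e : v = P (Fin.last p) v + (v - P (Fin.last p) v) := by abel
    rw [e]
    refine Submodule.add_mem _ (key _ (hV _ v hv) (Or.inr (hid v)))
      (key _ (V.sub_mem hv (hV _ v hv)) (Or.inl ?_))
    rw [map_sub, hid, sub_self]

theorem pf_IDB : T_IDB := by
  classical
  intro p R _ _ _ P hP hc V hV
  obtain ⟨T, hT⟩ : ∃ T : Set R, T = {v | v ∈ V ∧ ∀ s, P s v = 0 ∨ P s v = v} := ⟨_, rfl⟩
  have hTV : Submodule.span ℚ T = V := by
    apply le_antisymm
    · rw [Submodule.span_le, hT]
      exact fun v hv => hv.1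
    · rw [hT]
      exact idb_span R p P hP hc V hV
  obtain ⟨b, hbT, hbs, hbl⟩ := exists_linearIndependent ℚ T
  have hbV : ∀ x : b, (x : R) ∈ V := fun x => by
    have h := hbT x.2
    rw [hT] at h
    exact h.1
  have hli : LinearIndependent ℚ (fun x : b => (⟨(x : R), hbV x⟩ : V)) := by
    have h : LinearIndependent ℚ (V.subtype ∘ (fun x : b => (⟨(x : R), hbV x⟩ : V))) := hbl
    exact LinearIndependent.of_comp _ h
  have hsp : ⊤ ≤ Submodule.span ℚ (Set.range (fun x : b => (⟨(x : R), hbV x⟩ : V))) := by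
    rintro ⟨v, hv⟩ -
    have h1 : v ∈ Submodule.span ℚ b := by rw [hbs, hTV]; exact hv
    have h2 : (Submodule.span ℚ (Set.range (fun x : b => (⟨(x : R), hbV x⟩ : V)))).map
        V.subtype = Submodule.span ℚ b := by
      rw [Submodule.map_span, ← Set.range_comp]
      congr 1
      ext x
      simp
    rw [← h2] at h1
    obtain ⟨y, hy, hyv⟩ := h1
    have : y = ⟨v, hv⟩ := Subtype.ext hyv
    rw [← this]
    exact hy
  let B : Basis b ℚ V := Basis.mk hli hsp
  have : Fintype b := FiniteDimensional.fintypeBasisIndex B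
  have hcard : Fintype.card b = finrank ℚ V := (finrank_eq_card_basis B).symm
  let B' : Basis (Fin (finrank ℚ V)) ℚ V := B.reindex (Fintype.equivFinOfCardEq hcard)
  have hB' : ∀ i, ∀ s, P s (B' i : R) = 0 ∨ P s (B' i : R) = (B' i : R) := by
    intro i
    have h1 : (B' i : R) = (((Fintype.equivFinOfCardEq hcard).symm i : b) : R) := by
      show ((B.reindex (Fintype.equivFinOfCardEq hcard) i : V) : R) = _
      rw [Basis.reindex_apply, Basis.mk_apply]
    rw [h1]
    have h2 := hbT ((Fintype.equivFinOfCardEq hcard).symm i).2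
    rw [hT] at h2
    exact h2.2
  refine ⟨B', fun s i => if P s (B' i : R) = 0 then 0 else 1, fun s i => ?_, fun s i => ?_⟩
  · beta_reduce
    split_ifs <;> omega
  · beta_reduce
    by_cases h : P s (B' i : R) = 0
    · rw [if_pos h, h, Nat.cast_zero, zero_smul]
    · rw [if_neg h, Nat.cast_one, one_smul]
      exact (hB' i s).resolve_left h

end Pool.Agent.H65.PKER
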