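import Pool.Agent.H65.PK.Targets
import Pool.Agent.H35.HR.ZE

/-!
Module ZEN of pker_modules: the zero estimate with different degrees (after Pool.Agent.H35.HR.ZE).
-/

open MvPolynomial Module

namespace Pool.Agent.H65.PKER

open Pool.Agent.H72.HR Pool.Agent.H35.HR Pool.Agent.H65.PK

section sl
variable {ρ τ : Type} [Fintype ρ] [Fintype τ] [DecidableEq ρ] [DecidableEq τ]

theorem res_boxN (I : Finset ρ) (J : Finset τ) (T0 : ℕ) (T1 : τ → ℕ) (f : MvPolynomial (ρ ⊕ τ) ℂ)
    (hf : f ∈ box (Sum.elim (fun _ => T0) T1)) :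
    res I J f ∈ box (Sum.elim (fun _ => T0) (fun j : J => T1 j.1)) := by
  classical
  let emb : I ⊕ J → ρ ⊕ τ := Sum.map Subtype.val Subtype.val
  have hT : ∀ y : I ⊕ J, (Sum.elim (fun _ => T0) (fun j : J => T1 j.1) y : ℕ) =
      Sum.elim (fun _ => T0) T1 (emb y) := by
    rintro (y | y) <;> rfl
  have hX : ∀ (y : I ⊕ J) (x : ρ ⊕ τ), degreeOf y (res I J (X x)) ≤ if x = emb y then 1 else 0 := by
    intro y x
    rcases x with i | j
    · rw [res_inl]
      by_cases h : i ∈ I
      · rw [dif_pos h, degreeOf_X]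
        rcases y with y | y
        · by_cases hy : i = y.1
          · subst hy; simp [emb]
          · have : ¬ ((Sum.inl y : I ⊕ J) = Sum.inl ⟨i, h⟩) := by
              intro h1
              apply hy
              have := Sum.inl.inj h1
              rw [this]
            rw [if_neg this]; exact Nat.zero_le _
        · simp
      · rw [dif_neg h, degreeOf_zero]; exact Nat.zero_le _
    · rw [res_inr]
      by_cases h : j ∈ J
      · rw [dif_pos h, degreeOf_X]
        rcases y with y | y
        · simp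
        · by_cases hy : j = y.1
          · subst hy; simp [emb]
          · have : ¬ ((Sum.inr y : I ⊕ J) = Sum.inr ⟨j, h⟩) := by
              intro h1
              apply hy
              have := Sum.inr.inj h1
              rw [this]
            rw [if_neg this]; exact Nat.zero_le _
      · rw [dif_neg h, ← C_1, degreeOf_C]; exact Nat.zero_le _
  have hprod : ∀ (y : I ⊕ J) (s : Finset (ρ ⊕ τ)) (e : ρ ⊕ τ → ℕ),
      degreeOf y (∏ x ∈ s, res I J (X x) ^ e x) ≤ ∑ x ∈ s, e x * (if x = emb y then 1 else 0) := by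
    intro y s e
    induction s using Finset.induction_on with
    | empty => simp
    | insert a s ha ih =>
      rw [Finset.prod_insert ha, Finset.sum_insert ha]
      refine (degreeOf_mul_le _ _ _).trans (Nat.add_le_add ?_ ih)
      exact (degreeOf_pow_le _ _ _).trans (Nat.mul_le_mul_left _ (hX y a))
  rw [mem_box]
  intro y
  rw [f.as_sum, map_sum]
  refine (degreeOf_sum_le _ _ _).trans ?_
  rw [Finset.sup_le_iff]
  intro m hm
  have hmT : m (emb y) ≤ Sum.elim (fun _ => T0) T1 (emb y) :=
    (MvPolynomial.degreeOf_le_iff.1 (mem_box.1 hf (emb y))) m hm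
  rw [monomial_eq, map_mul, res_C]
  refine (degreeOf_C_mul_le _ _ _).trans ?_
  rw [Finsupp.prod_fintype _ _ (fun i => pow_zero _), map_prod]
  simp only [map_pow]
  refine (hprod y Finset.univ m).trans ?_
  rw [hT]
  simpa using hmT

end sl

theorem pf_ZEN : T_SLC → T_ZEN := by
  intro hSLC
  classical
  intro ρ τ _ _ _ _ T0 T1 S W Γ P hT0 hT1 h0 hP hPT hev
  have hcard : Fintype.card (ρ ⊕ τ) = Fintype.card ρ + Fintype.card τ := Fintype.card_sum
  obtain ⟨j, hj, N, hNT, hcN, ⟨Z, hZ⟩, hne⟩ := chnT (ρ ⊕ τ) kap (Sum.elim (fun _ => T0) T1) W Γ S P h0 hP hPT (by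
    rw [hcard]; exact hev)
  obtain ⟨L, Θ, hstd, hst⟩ := str (ρ ⊕ τ) kap (Sum.elim (fun _ => T0) T1) N hNT
  obtain ⟨I, J, hsl⟩ := exists_slice L Θ (Sum.elim (fun _ => T0) T1) hstd
  have hcI := hsl.cI
  have hcJ := hsl.cJ
  -- the chain spaces
  set Lj := chn kap W Γ S P j with hLj
  have hLjT : Lj ≤ box (Sum.elim (fun _ => T0) T1) := chn_box kap W Γ S hPT j
  have hDW : DW kap W (TL kap Γ Lj) S ≤ N := hcN
  -- functionals which vanish on N
  let Ph : Set (MvPolynomial (ρ ⊕ τ) ℂ →ₗ[ℂ] ℂ) := {φ | N ≤ LinearMap.ker φ}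
  choose Hc hHbox hHev hHdv using fun φ : MvPolynomial (ρ ⊕ τ) ℂ →ₗ[ℂ] ℂ => com (ρ ⊕ τ) kap φ
  let L' : Submodule ℂ (MvPolynomial (I ⊕ J) ℂ) :=
    Submodule.span ℂ {h | ∃ φ ∈ Ph, ∃ f ∈ Lj, h = res I J (Hc φ f)}
  -- points killed by L'
  have hsig : ∀ a : I ⊕ J → ℂ, (∀ h ∈ L', eval (pt kap a) h = 0) → ext I J a ∈ sig kap Lj N := by
    intro a ha f hf
    by_contra hne
    obtain ⟨φ, hφ1, hφ2⟩ := Submodule.exists_le_ker_of_notMem hne
    have h1 := ha (res I J (Hc φ f)) (Submodule.subset_span ⟨φ, hφ2, f, hf, rfl⟩)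
    rw [eval_res, hHev] at h1
    exact hφ1 h1
  -- the representatives
  choose r hr using hsl.surj
  let W' : Submodule ℂ (I ⊕ J → ℂ) := (W ⊔ Lie kap L Θ).comap (ext I J)
  have hfrW : finrank ℂ W' = finrank ℂ W -
      finrank ℂ (W ⊓ Lie kap L Θ : Submodule ℂ (ρ ⊕ τ → ℂ)) := by
    have e1 : (W'.map (ext I J)) ⊔ Lie kap L Θ = W ⊔ Lie kap L Θ := by
      apply le_antisymm
      · refine sup_le ?_ le_sup_right
        rintro _ ⟨a, ha, rfl⟩
        exact ha
      · refine sup_le ?_ le_sup_right
        intro x hx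
        have h1 := hr x
        have h2 : ext I J (r x) ∈ W ⊔ Lie kap L Θ := by
          have h3 : ext I J (r x) = x - (x - ext I J (r x)) := by abel
          rw [h3]
          exact Submodule.sub_mem _ (Submodule.mem_sup_left hx) (Submodule.mem_sup_right h1)
        have h3 : x = ext I J (r x) + (x - ext I J (r x)) := by abel
        rw [h3]
        exact Submodule.add_mem _ (Submodule.mem_sup_left ⟨r x, h2, rfl⟩) (Submodule.mem_sup_right h1)
    have e2 : (W'.map (ext I J)) ⊓ Lie kap L Θ = ⊥ := by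
      rw [eq_bot_iff]
      rintro _ ⟨⟨a, ha, rfl⟩, h2⟩
      rw [Submodule.mem_bot, hsl.inj a h2, map_zero]
    have hinj : Function.Injective (ext I J) := by
      rw [← LinearMap.ker_eq_bot, LinearMap.ker_eq_bot']
      intro a ha
      apply hsl.inj
      rw [ha]
      exact Submodule.zero_mem _
    have e3 : finrank ℂ (W'.map (ext I J)) = finrank ℂ W' :=
      (LinearEquiv.finrank_eq (Submodule.equivMapOfInjective (ext I J) hinj W')).symm
    have e4 := Submodule.finrank_sup_add_finrank_inf_eq (W'.map (ext I J)) (Lie kap L Θ)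
    have e5 := Submodule.finrank_sup_add_finrank_inf_eq W (Lie kap L Θ)
    rw [e1, e2, e3, finrank_bot] at e4
    omega
  -- not everything
  have hlt : finrank ℂ L + finrank ℂ (Lie kap ⊥ Θ) < Fintype.card ρ + Fintype.card τ := by
    by_contra hcon
    have h1 : I.card = 0 := by omega
    have h2 : J.card = 0 := by omega
    rw [Finset.card_eq_zero] at h1 h2
    apply hne
    rw [hst]
    ext g
    refine ⟨fun _ => trivial, fun _ => ?_⟩
    have h3 := hr g
    have h4 : ext I J (r g) = 0 := by
      funext x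
      rcases x with i | i
      · rw [ext_inl, dif_neg (by rw [h1]; exact Finset.notMem_empty _)]; rfl
      · rw [ext_inr, dif_neg (by rw [h2]; exact Finset.notMem_empty _)]; rfl
    rw [h4, sub_zero] at h3
    exact Lie_le_Grp h3
  refine ⟨L, Θ, J, hstd, by omega, by omega, hlt, by omega, ?_⟩
  intro F hFΓ hFd
  -- apply the finite estimate
  have hdist : ∀ g ∈ F, ∀ g' ∈ F, pt kap (r g) = pt kap (r g') → g = g' := by
    intro g hg g' hg' hpt
    apply hFd g hg g' hg'
    have h1 : ext I J (r g - r g') ∈ Grp kap L Θ := by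
      refine ⟨?_, fun u hu => ?_⟩
      · have h2 : (fun x => if kap x then 0 else ext I J (r g - r g') x) = (0 : ρ ⊕ τ → ℂ) := by
          funext x
          rcases x with i | i
          · have h3 : ∀ (h : i ∈ I), r g (Sum.inl ⟨i, h⟩) = r g' (Sum.inl ⟨i, h⟩) := by
              intro h
              have := congrFun hpt (Sum.inl ⟨i, h⟩)
              simpa [pt, kap] using this
            by_cases h : i ∈ I
            · simp [kap, ext_inl, h, h3 h]
            · simp [kap, ext_inl, h]
          · simp [kap]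
        rw [h2]
        exact L.zero_mem
      · rw [Complex.exp_sum]
        refine Finset.prod_eq_one fun x _ => ?_
        rcases x with i | i
        · rw [hstd.hΘ u hu (Sum.inl i) rfl]; simp
        · by_cases h : i ∈ J
          · have h3 : Complex.exp (r g (Sum.inr ⟨i, h⟩)) = Complex.exp (r g' (Sum.inr ⟨i, h⟩)) := by
              have := congrFun hpt (Sum.inr ⟨i, h⟩)
              simpa [pt, kap] using this
            rw [ext_inr, dif_pos h, Pi.sub_apply, Complex.exp_int_mul, Complex.exp_sub, h3,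
              div_self (Complex.exp_ne_zero _), one_zpow]
          · rw [ext_inr, dif_neg h, mul_zero, Complex.exp_zero]
    have h2 : g - g' = ext I J (r g - r g') + ((g - ext I J (r g)) - (g' - ext I J (r g'))) := by
      rw [map_sub]; abel
    rw [h2]
    exact Grp_add h1 (Lie_le_Grp ((Lie kap L Θ).sub_mem (hr g) (hr g')))
  have hmain := hSLC (I ⊕ J) kap (Sum.elim (fun _ => T0) (fun j : J => T1 j.1)) W' S L' (F.image r) ?_ ?_ ?_ ?_ ?_
  · have hFc : (F.image r).card = F.card := by
      apply Finset.card_image_of_injOn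
      intro g hg g' hg' hgg
      exact hdist g hg g' hg' (by rw [hgg])
    have hprod : ∏ x : I ⊕ J, (Sum.elim (fun _ => T0) (fun j : J => T1 j.1) x : ℕ) =
        T0 ^ I.card * ∏ j ∈ J, T1 j := by
      rw [Fintype.prod_sum_type]
      simp only [Sum.elim_inl, Sum.elim_inr, Finset.prod_const, Finset.card_univ,
        Fintype.card_coe]
      rw [Finset.prod_coe_sort J T1]
    have hcIJ : Fintype.card (I ⊕ J) = I.card + J.card := by
      rw [Fintype.card_sum, Fintype.card_coe, Fintype.card_coe]
    rw [hFc, hfrW, hprod, hcIJ] at hmain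
    have e1 : I.card = Fintype.card ρ - finrank ℂ L := by omega
    have e2 : J.card = Fintype.card τ - finrank ℂ (Lie kap ⊥ Θ) := by omega
    rw [← e1]
    refine hmain.trans (Nat.mul_le_mul_right _ ?_)
    have e3 : I.card + J.card ≤ Fintype.card ρ + Fintype.card τ := by omega
    have e4 : 0 < Fintype.card ρ + Fintype.card τ := by omega
    calc (I.card + J.card) ^ (I.card + J.card) ≤
          (Fintype.card ρ + Fintype.card τ) ^ (I.card + J.card) := Nat.pow_le_pow_left e3 _
      _ ≤ _ := Nat.pow_le_pow_right e4 e3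
  · rintro (i | i)
    · exact hT0
    · exact hT1 _
  · rw [Submodule.span_le]
    rintro _ ⟨φ, -, f, hf, rfl⟩
    exact res_boxN I J T0 T1 _ (hHbox φ _ f (hLjT hf))
  · -- finiteness of the zero set
    have hB : ∀ z ∈ Z, {x : I ⊕ J → ℂ | ∃ a, x = pt kap a ∧ ext I J a - z ∈ stab kap N}.Finite := by
      intro z _
      by_cases hex : ∃ a0 : I ⊕ J → ℂ, ext I J a0 - z ∈ stab kap N
      · obtain ⟨a0, ha0⟩ := hex
        refine Set.Finite.subset (hsl.fin.image (fun x : I ⊕ J → ℂ => (Sum.elim (fun i => a0 (Sum.inl i))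
          (fun i => Complex.exp (a0 (Sum.inr i)) * x (Sum.inr i)) : I ⊕ J → ℂ))) ?_
        rintro _ ⟨a, rfl, ha⟩
        rw [hst] at ha ha0
        have h1 : ext I J (a - a0) ∈ Grp kap L Θ := by
          have := Grp_sub ha ha0
          rwa [sub_sub_sub_cancel_right, ← map_sub] at this
        refine ⟨pt kap (a - a0), ⟨a - a0, rfl, h1⟩, ?_⟩
        funext x
        rcases x with i | i
        · have h2 := hsl.injG _ h1 i
          rw [Pi.sub_apply, sub_eq_zero] at h2
          simp [pt, kap, h2]
        · simp [pt, kap, ← Complex.exp_add]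
      · refine Set.Finite.subset Set.finite_empty ?_
        rintro _ ⟨a, rfl, ha⟩
        exact absurd ⟨a, ha⟩ hex
    refine Set.Finite.subset (Set.Finite.biUnion Z.finite_toSet hB) ?_
    rintro a ⟨ha1, ha2⟩
    let b : I ⊕ J → ℂ := fun i => if kap i then Complex.log (a i) else a i
    have hb : pt kap b = a := by
      funext i
      by_cases hi : kap i = true
      · simp [pt, b, hi, Complex.exp_log (ha1 i hi)]
      · simp [pt, b, hi]
    have h1 := hsig b (by rw [hb]; exact ha2)
    obtain ⟨z, hz, hzs⟩ := hZ _ h1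
    simp only [Set.mem_iUnion]
    exact ⟨z, hz, b, hb.symm, hzs⟩
  · intro g hg g' hg' hpt
    obtain ⟨x, hx, rfl⟩ := Finset.mem_image.1 hg
    obtain ⟨x', hx', rfl⟩ := Finset.mem_image.1 hg'
    rw [hdist x hx x' hx' hpt]
  · -- vanishing
    intro g hg h hh w hw m hm
    obtain ⟨x, hx, rfl⟩ := Finset.mem_image.1 hg
    induction hh using Submodule.span_induction with
    | mem h hh =>
      obtain ⟨φ, hφ, f, hf, rfl⟩ := hh
      obtain ⟨w1, hw1, s1, hs1, hws⟩ := Submodule.mem_sup.1 (show ext I J w ∈ W ⊔ Lie kap L Θ from hw)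
      have hws' : ext I J w = w1 - (-s1) := by rw [← hws]; abel
      have hiter : ∀ (k : ℕ) (F0 : MvPolynomial (ρ ⊕ τ) ℂ),
          (dv kap (ext I J w))^[k] (Hc φ F0) = Hc φ ((dv kap (ext I J w))^[k] F0) := by
        intro k
        induction k with
        | zero => intro F0; rfl
        | succ k ih =>
          intro F0
          rw [Function.iterate_succ_apply, ← hHdv, ih, ← Function.iterate_succ_apply]
      rw [iter_res, hiter, eval_res, hHev]
      apply hφ
      have h1 : ext I J (r x) = (ext I J (r x) - x) + x := by abel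
      rw [h1, ← tr_tr, ← iter_tr, hws']
      have h2 : ext I J (r x) - x ∈ stab kap N := by
        rw [hst]
        have : ext I J (r x) - x = -(x - ext I J (r x)) := by abel
        rw [this]
        exact Lie_le_Grp ((Lie kap L Θ).neg_mem (hr x))
      apply h2
      have h3 := iter_stay hst hDW hw1 ((Lie kap L Θ).neg_mem hs1)
        (f := tr kap x f) (Submodule.subset_span ⟨x, hFΓ x hx, f, hf, rfl⟩) m 0 (by omega)
      exact h3
    | zero => rw [show (0 : MvPolynomial (I ⊕ J) ℂ) = (0 : ℂ) • 0 by simp, iter_smul]; simp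
    | add h1 h2 _ _ ih1 ih2 => rw [iter_add, map_add, ih1, ih2, add_zero]
    | smul c h1 _ ih1 => rw [iter_smul, smul_eval, ih1, mul_zero]



end Pool.Agent.H65.PKER
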