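import Pool.Agent.H65.PK.Targets
import Pool.Agent.H18.TD.TDH

/-!
Module CKR of pker_modules: rational pencils, indexed by a finite type.
-/

set_option autoImplicit false

open Polynomial Module

namespace Pool.Agent.H65.PKER

open Pool.Agent.H65.PK
open Pool.Agent.H18.TD (exists_den AO)

theorem pf_CKR : T_CKN → T_CKR := by
  classical
  intro hCKN t ht ι _ w K0 hne hw hew hK0 hind d κ K A ω υ hd hK hmin h1 h2 h3 h4
  obtain ⟨n, hn⟩ : ∃ n, Fintype.card ι = n + 1 :=
    ⟨Fintype.card ι - 1, by have := Fintype.card_pos (α := ι); omega⟩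
  let e : ι ≃ Fin (n + 1) := Fintype.equivFinOfCardEq hn
  obtain ⟨N, g, hN, hg⟩ := exists_den (fun q : ι × Fin d × Fin d => A q.1 q.2.1 q.2.2)
  have hNQ : (N : ℚ) ≠ 0 := by positivity
  have hNC : (N : ℂ) ≠ 0 := by exact_mod_cast (by omega : N ≠ 0)
  obtain ⟨A', hA'⟩ : ∃ A' : Fin (n + 1) → Matrix (Fin d) (Fin d) ℤ,
      A' = fun k p j => g (e.symm k, p, j) := ⟨_, rfl⟩
  have hA'Q : ∀ k, (A' k).map (Int.cast : ℤ → ℚ) = (N : ℚ) • A (e.symm k) := by
    intro k
    ext p j
    rw [Matrix.map_apply, Matrix.smul_apply, smul_eq_mul, hA']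
    exact hg (e.symm k, p, j)
  have hA'0 : ∀ k p j, A' k p j ≠ 0 → A (e.symm k) p j ≠ 0 := by
    intro k p j h h0
    apply h
    have h5 := hg (e.symm k, p, j)
    simp only [h0, mul_zero] at h5
    rw [hA']
    exact_mod_cast h5
  have hmin' : Mnl (fun k => (A' k).map (Int.cast : ℤ → ℚ)) := by
    intro V U hVU hV
    refine hmin V U ?_ hV
    intro k y hy
    have h5 := hVU (e k) y hy
    simp only [hA'Q, Equiv.symm_apply_apply, Matrix.vecMul_smul] at h5
    exact (U.smul_mem_iff hNQ).1 h5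
  have hmain := hCKN t ht n (fun k => w (e.symm k)) (fun k => K0 (e.symm k)) (fun k => hw _)
    (fun k => hew _) (fun k => hK0 _) (by
      intro q hq
      have h5 := hind (fun k => q (e k)) (by
        rw [← hq]
        congr 1
        refine Fintype.sum_equiv e _ _ fun k => ?_
        rw [Equiv.symm_apply_apply])
      funext k
      have h6 := congrFun h5 (e.symm k)
      simpa using h6) d κ K A' ω υ hd hK hmin' (fun k p j h => h1 _ p j (hA'0 k p j h))
    (fun k p j hk h => h2 _ p j hk (hA'0 k p j h)) h3 h4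
  have hrank : (Matrix.of fun (p : Fin d) (j : Fin d) =>
      ∑ k, w (e.symm k) * (A' k p j : ℂ)).rank = (∑ k, w k • (A k).map (algebraMap ℚ ℂ)).rank := by
    have h5 : (Matrix.of fun (p : Fin d) (j : Fin d) => ∑ k, w (e.symm k) * (A' k p j : ℂ)) =
        (N : ℂ) • (∑ k, w k • (A k).map (algebraMap ℚ ℂ)) := by
      ext p j
      rw [Matrix.of_apply, Matrix.smul_apply, Matrix.sum_apply, smul_eq_mul, Finset.mul_sum]
      refine Fintype.sum_equiv e.symm _ _ fun k => ?_
      rw [Matrix.smul_apply, Matrix.map_apply, smul_eq_mul]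
      have h6 := hg (e.symm k, p, j)
      have h7 : ((g (e.symm k, p, j) : ℚ) : ℂ) = ((N * A (e.symm k) p j : ℚ) : ℂ) := by rw [h6]
      push_cast at h7
      rw [hA']
      simp only [eq_ratCast]
      rw [h7]
      ring
    rw [h5]
    exact Matrix.rank_smul_of_mem_nonZeroDivisors _ (mem_nonZeroDivisors_of_ne_zero hNC)
  rwa [hrank] at hmain

end Pool.Agent.H65.PKER
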